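import Pool.Agent.VM.Stmts

/-! VMV, module LMD: the trivial subdivision of the two classes in the bilinear inequality. -/

set_option autoImplicit false

namespace Pool.Agent.VM.H64

open Pool.Agent.Helper69_Weyl (ee)

lemma tri_one : tri 1 = 1 := rfl

lemma three_le_tri {k : ℕ} (hk : 2 ≤ k) : 3 ≤ tri k := by
  unfold tri
  have h : 2 * 3 ≤ k * (k + 1) := Nat.mul_le_mul hk (by omega)
  omega

lemma inCl_cl (m : ℕ) (c : ℤ) (s : Finset ℤ) : InCl m c (cl m c s) := fun x hx => by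
  unfold cl at hx
  exact (Finset.mem_filter.1 hx).2

lemma g_empty (q : ℕ) {l : ℕ} (E : Fin l → ℤ → ℤ) (w : ℤ → ℂ) (ζ : Fin l → ℤ) :
    G q E ∅ w ζ = 0 := by
  unfold G
  rw [Finset.sum_empty]

/-- the exponential sum is the sum over the residue classes -/
lemma g_cl (q : ℕ) {l : ℕ} (E : Fin l → ℤ → ℤ) (s : Finset ℤ) (w : ℤ → ℂ) (ζ : Fin l → ℤ)
    {m : ℕ} (hm : 0 < m) :
    G q E s w ζ = ∑ c ∈ Finset.range m, G q E (cl m (c : ℤ) s) w ζ := by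
  have hm' : (0 : ℤ) < m := by exact_mod_cast hm
  unfold G cl
  have key : ∀ x : ℤ, (((x % (m : ℤ)).toNat : ℕ) : ℤ) = x % m := fun x =>
    Int.toNat_of_nonneg (Int.emod_nonneg _ hm'.ne')
  have h := Finset.sum_fiberwise_of_maps_to (s := s) (t := Finset.range m)
    (g := fun x : ℤ => (x % (m : ℤ)).toNat) (fun x _ => by
      have h1 := Int.emod_lt_of_pos x hm'
      have h2 := key x
      exact Finset.mem_range.2 (by omega))
    (fun x => w x * ee (((∑ j, ζ j * E j x : ℤ) : ℝ) / (q : ℝ)))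
  rw [← h]
  refine Finset.sum_congr rfl fun c hc => ?_
  refine Finset.sum_congr (Finset.filter_congr fun x _ => ?_) fun _ _ => rfl
  have hc' := Finset.mem_range.1 hc
  have h2 := key x
  constructor
  · intro h3
    have h4 : x % (m : ℤ) = (c : ℤ) := by rw [← h2, h3]
    show x % (m : ℤ) = (c : ℤ) % m
    rw [h4, Int.emod_eq_of_lt (by positivity) (by exact_mod_cast hc')]
  · intro h3
    have h4 : x % (m : ℤ) = (c : ℤ) % m := h3
    rw [h4, Int.emod_eq_of_lt (by positivity) (by exact_mod_cast hc')]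
    simp

/-- the power of a sum of norms -/
lemma norm_sum_pow_le {m : ℕ} (F : ℕ → ℂ) (t : ℕ) :
    ‖∑ c ∈ Finset.range m, F c‖ ^ (t + 1) ≤
      (m : ℝ) ^ t * ∑ c ∈ Finset.range m, ‖F c‖ ^ (t + 1) := by
  have h1 : ‖∑ c ∈ Finset.range m, F c‖ ^ (t + 1) ≤
      (∑ c ∈ Finset.range m, ‖F c‖) ^ (t + 1) :=
    pow_le_pow_left₀ (norm_nonneg _) (norm_sum_le _ _) _
  have h3 := pow_sum_div_card_le_sum_pow (s := Finset.range m) (f := fun c => ‖F c‖)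
    (fun c _ => norm_nonneg _) t
  rw [Finset.card_range] at h3
  rcases Nat.eq_zero_or_pos m with rfl | hm
  · simp
  · have hm' : (0 : ℝ) < m := by exact_mod_cast hm
    rw [div_le_iff₀ (pow_pos hm' _)] at h3
    calc _ ≤ _ := h1
      _ ≤ _ := h3
      _ = _ := mul_comm _ _

lemma av_mono {q l : ℕ} {Φ Ψ : (Fin l → ℤ) → ℝ} (h : ∀ ζ, Φ ζ ≤ Ψ ζ) : Av q l Φ ≤ Av q l Ψ := by
  unfold Av
  exact div_le_div_of_nonneg_right (Finset.sum_le_sum fun _ _ => h _) (by positivity)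

lemma av_nonneg {q l : ℕ} {Φ : (Fin l → ℤ) → ℝ} (h : ∀ ζ, 0 ≤ Φ ζ) : 0 ≤ Av q l Φ := by
  unfold Av
  exact div_nonneg (Finset.sum_nonneg fun _ _ => h _) (by positivity)

lemma av_mul (q l : ℕ) (a : ℝ) (Φ : (Fin l → ℤ) → ℝ) :
    Av q l (fun ζ => a * Φ ζ) = a * Av q l Φ := by
  unfold Av
  rw [← Finset.mul_sum, mul_div_assoc]

lemma av_sum {ι : Type*} (q l : ℕ) (T : Finset ι) (Φ : ι → (Fin l → ℤ) → ℝ) :
    Av q l (fun ζ => ∑ i ∈ T, Φ i ζ) = ∑ i ∈ T, Av q l (Φ i) := by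
  unfold Av
  rw [Finset.sum_comm, Finset.sum_div]

lemma mom_nonneg (q : ℕ) {l : ℕ} (E : Fin l → ℤ → ℤ) (r : ℕ) (s : Finset ℤ) (w : ℤ → ℂ) :
    0 ≤ mom q E r s w := av_nonneg fun _ => by positivity

lemma sq_nonneg' (q : ℕ) {l : ℕ} (E : Fin l → ℤ → ℤ) (r m : ℕ) (s : Finset ℤ) (w : ℤ → ℂ) :
    0 ≤ Sq q E r m s w := by
  unfold Sq
  exact Finset.sum_nonneg fun _ _ => Real.rpow_nonneg (mom_nonneg _ _ _ _ _) _

/-- the sum of powers is at most the power of the sum -/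
lemma sum_pow_le_pow {ι : Type*} (T : Finset ι) (f : ι → ℝ) (t : ℕ) (hf : ∀ i ∈ T, 0 ≤ f i) :
    ∑ i ∈ T, f i ^ (t + 1) ≤ (∑ i ∈ T, f i) ^ (t + 1) := by
  rw [pow_succ (∑ i ∈ T, f i), Finset.mul_sum]
  refine Finset.sum_le_sum fun i hi => ?_
  rw [pow_succ]
  exact mul_le_mul_of_nonneg_right
    (pow_le_pow_left₀ (hf i hi) (Finset.single_le_sum hf hi) _) (hf i hi)

/-- a class modulo `p ^ a` of a set inside a class modulo `p` -/
lemma cl_empty {p a : ℕ} (ha : 1 ≤ a) {c d : ℤ} {s : Finset ℤ} (hs : InCl (p ^ 1) c s)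
    (h : ¬ d ≡ c [ZMOD (p : ℤ)]) : cl (p ^ a) d s = ∅ := by
  unfold cl
  rw [Finset.filter_eq_empty_iff]
  intro x hx hd
  apply h
  have h1 := hs x hx
  rw [pow_one] at h1
  have h2 : x ≡ d [ZMOD (p : ℤ)] := by
    refine hd.of_dvd ?_
    push_cast
    exact dvd_pow_self _ (by omega)
  exact h2.symm.trans h1

/-- LMD -/
theorem lmd (p k : ℕ) (hp : p.Prime) (hk : 2 ≤ k) (sqn : SqnStmt) : LmdStmt p k := by
  intro n a b B hB ha han hb hbn hBil c c' hcc s s' w w' hs hs'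
  obtain ⟨R, hR⟩ : ∃ R, tri k = R + 3 := ⟨tri k - 3, by have := three_le_tri hk; omega⟩
  have hp0 : 0 < p := hp.pos
  have hp1 : (1 : ℝ) ≤ p := by exact_mod_cast hp.one_lt.le
  obtain ⟨q, hq⟩ : ∃ q, q = p ^ (k * n) := ⟨_, rfl⟩
  have hq0 : 0 < q := by rw [hq]; positivity
  rw [← hq]
  have e1 : 2 * tri 1 = 1 + 1 := rfl
  have e2 : 2 * (tri k - tri 1) = (2 * R + 3) + 1 := by rw [hR, tri_one]; omega
  have e3 : tri k - tri 1 = (R + 1) + 1 := by rw [hR, tri_one]; omega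
  have hpa : 0 < p ^ a := by positivity
  have hpb : 0 < p ^ b := by positivity
  have hpn : 0 < p ^ n := by positivity
  -- pointwise
  have hpt : ∀ ζ : Fin k → ℤ, ‖G q (mc 0 k) s w ζ‖ ^ (2 * tri 1) *
      ‖G q (mc 0 k) s' w' ζ‖ ^ (2 * (tri k - tri 1)) ≤
      (((p ^ a : ℕ) : ℝ) ^ 1 * ((p ^ b : ℕ) : ℝ) ^ (2 * R + 3)) *
        ∑ x ∈ Finset.range (p ^ a) ×ˢ Finset.range (p ^ b),
          (‖G q (mc 0 k) (cl (p ^ a) (x.1 : ℤ) s) w ζ‖ ^ (2 * tri 1) *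
            ‖G q (mc 0 k) (cl (p ^ b) (x.2 : ℤ) s') w' ζ‖ ^ (2 * (tri k - tri 1))) := by
    intro ζ
    rw [e2, e1, Finset.sum_product]
    dsimp only
    rw [← Finset.sum_mul_sum]
    have h1 := norm_sum_pow_le (m := p ^ a) (fun x => G q (mc 0 k) (cl (p ^ a) (x : ℤ) s) w ζ) 1
    have h2 := norm_sum_pow_le (m := p ^ b) (fun x => G q (mc 0 k) (cl (p ^ b) (x : ℤ) s') w' ζ)
      (2 * R + 3)
    rw [← g_cl _ _ _ _ _ hpa] at h1
    rw [← g_cl _ _ _ _ _ hpb] at h2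
    calc _ ≤ _ := mul_le_mul h1 h2 (by positivity) (by positivity)
      _ = _ := by ring
  have hav := av_mono (q := q) hpt
  rw [av_mul, av_sum] at hav
  refine hav.trans ?_
  -- the pairs of classes
  have hpair : ∀ x ∈ Finset.range (p ^ a) ×ˢ Finset.range (p ^ b),
      Av q k (fun ζ => ‖G q (mc 0 k) (cl (p ^ a) (x.1 : ℤ) s) w ζ‖ ^ (2 * tri 1) *
        ‖G q (mc 0 k) (cl (p ^ b) (x.2 : ℤ) s') w' ζ‖ ^ (2 * (tri k - tri 1))) ≤
      B * (Sq q (mc 0 k) (tri k) (p ^ n) (cl (p ^ a) (x.1 : ℤ) s) w ^ (tri 1) *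
        Sq q (mc 0 k) (tri k) (p ^ n) (cl (p ^ b) (x.2 : ℤ) s') w' ^ (tri k - tri 1)) := by
    intro x _
    have hnn : 0 ≤ B * (Sq q (mc 0 k) (tri k) (p ^ n) (cl (p ^ a) (x.1 : ℤ) s) w ^ (tri 1) *
        Sq q (mc 0 k) (tri k) (p ^ n) (cl (p ^ b) (x.2 : ℤ) s') w' ^ (tri k - tri 1)) :=
      mul_nonneg hB (mul_nonneg (pow_nonneg (sq_nonneg' _ _ _ _ _ _) _)
        (pow_nonneg (sq_nonneg' _ _ _ _ _ _) _))
    have hzero : ∀ Φ : (Fin k → ℤ) → ℝ, (∀ ζ, Φ ζ = 0) → Av q k Φ = 0 := by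
      intro Φ h
      unfold Av
      simp only [h, Finset.sum_const_zero, zero_div]
    by_cases h1 : ((x.1 : ℕ) : ℤ) ≡ c [ZMOD (p : ℤ)]
    · by_cases h2 : ((x.2 : ℕ) : ℤ) ≡ c' [ZMOD (p : ℤ)]
      · have h3 : ¬ ((x.1 : ℕ) : ℤ) ≡ ((x.2 : ℕ) : ℤ) [ZMOD (p : ℤ)] := fun h =>
          hcc ((h1.symm.trans h).trans h2)
        have h4 := hBil _ _ h3 (cl (p ^ a) (x.1 : ℤ) s) (cl (p ^ b) (x.2 : ℤ) s') w w'
          (inCl_cl _ _ _) (inCl_cl _ _ _)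
        rw [← hq, mul_assoc] at h4
        exact h4
      · rw [hzero]
        · exact hnn
        · intro ζ
          rw [cl_empty hb hs' h2, g_empty, norm_zero, e2, zero_pow (Nat.succ_ne_zero _), mul_zero]
    · rw [hzero]
      · exact hnn
      · intro ζ
        rw [cl_empty ha hs h1, g_empty, norm_zero, e1, zero_pow (by norm_num), zero_mul]
  have hsum := Finset.sum_le_sum hpair
  rw [← Finset.mul_sum, Finset.sum_product (f := fun x : ℕ × ℕ =>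
    (Sq q (mc 0 k) (tri k) (p ^ n) (cl (p ^ a) (x.1 : ℤ) s) w ^ (tri 1) *
        Sq q (mc 0 k) (tri k) (p ^ n) (cl (p ^ b) (x.2 : ℤ) s') w' ^ (tri k - tri 1)))] at hsum
  dsimp only at hsum
  rw [← Finset.sum_mul_sum] at hsum
  have hs1 : ∑ i ∈ Finset.range (p ^ a),
      Sq q (mc 0 k) (tri k) (p ^ n) (cl (p ^ a) ((i : ℕ) : ℤ) s) w ^ (tri 1) =
      Sq q (mc 0 k) (tri k) (p ^ n) s w ^ (tri 1) := by
    rw [tri_one]
    simp only [pow_one]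
    exact sqn q k (mc 0 k) (tri k) (p ^ a) (p ^ n) s w hq0 (by omega) hpa hpn
      (pow_dvd_pow p han)
  have hs2 : ∑ i ∈ Finset.range (p ^ b),
      Sq q (mc 0 k) (tri k) (p ^ n) (cl (p ^ b) ((i : ℕ) : ℤ) s') w' ^ (tri k - tri 1) ≤
      Sq q (mc 0 k) (tri k) (p ^ n) s' w' ^ (tri k - tri 1) := by
    rw [← sqn q k (mc 0 k) (tri k) (p ^ b) (p ^ n) s' w' hq0 (by omega) hpb hpn
      (pow_dvd_pow p hbn), e3]
    exact sum_pow_le_pow _ _ _ fun i _ => sq_nonneg' _ _ _ _ _ _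
  rw [hs1] at hsum
  have hsum2 := hsum.trans (mul_le_mul_of_nonneg_left (mul_le_mul_of_nonneg_left hs2
    (pow_nonneg (sq_nonneg' _ _ _ _ _ _) _)) hB)
  have hcost : ((p ^ a : ℕ) : ℝ) ^ 1 * ((p ^ b : ℕ) : ℝ) ^ (2 * R + 3) ≤
      (p : ℝ) ^ (2 * tri k * (a + b)) := by
    push_cast
    rw [← pow_mul, ← pow_mul, ← pow_add]
    refine pow_le_pow_right₀ hp1 ?_
    rw [hR]
    nlinarith
  have hnn : 0 ≤ B * (Sq q (mc 0 k) (tri k) (p ^ n) s w ^ (tri 1) *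
      Sq q (mc 0 k) (tri k) (p ^ n) s' w' ^ (tri k - tri 1)) :=
    mul_nonneg hB (mul_nonneg (pow_nonneg (sq_nonneg' _ _ _ _ _ _) _)
      (pow_nonneg (sq_nonneg' _ _ _ _ _ _) _))
  calc _ ≤ _ := mul_le_mul_of_nonneg_left hsum2 (by positivity)
    _ ≤ (p : ℝ) ^ (2 * tri k * (a + b)) * (B * (Sq q (mc 0 k) (tri k) (p ^ n) s w ^ (tri 1) *
      Sq q (mc 0 k) (tri k) (p ^ n) s' w' ^ (tri k - tri 1))) :=
      mul_le_mul_of_nonneg_right hcost hnn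
    _ = _ := by ring

end Pool.Agent.VM.H64
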