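import Pool.Agent.VM.Stmts

/-! VMV, module SQT: the square function is invariant under translations of the variable. -/

set_option autoImplicit false

namespace Pool.Agent.VM.H64

lemma cl_tr (m : ℕ) (c a : ℤ) (s : Finset ℤ) : cl m a (tr c s) = tr c (cl m (a + c) s) := by
  unfold cl tr
  ext x
  simp only [Finset.mem_filter, Finset.mem_image]
  constructor
  · rintro ⟨⟨y, hy, rfl⟩, h⟩
    refine ⟨y, ⟨hy, ?_⟩, rfl⟩
    have := h.add_right c
    rwa [sub_add_cancel] at this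
  · rintro ⟨y, ⟨hy, h⟩, rfl⟩
    refine ⟨⟨y, hy, rfl⟩, ?_⟩
    have := h.sub_right c
    rwa [add_sub_cancel_right] at this

lemma cl_congr {m : ℕ} {a b : ℤ} (h : a ≡ b [ZMOD (m : ℤ)]) (s : Finset ℤ) :
    cl m a s = cl m b s := by
  unfold cl
  exact Finset.filter_congr fun x _ => ⟨fun h' => h'.trans h, fun h' => h'.trans h.symm⟩

/-- the mean value is invariant under translations -/
lemma mom_tr (tra : TraStmt) (q k r : ℕ) (c : ℤ) (s : Finset ℤ) (w : ℤ → ℂ) (hq : 0 < q) :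
    mom q (mc 0 k) r (tr c s) (tw c w) = mom q (mc 0 k) r s w := by
  have h := tra q k c s s w w (2 * r) 0 hq
  simp only [pow_zero, mul_one] at h
  exact h.symm

/-- summation over the residue classes is invariant under translations -/
lemma sum_shift {m : ℕ} (hm : 0 < m) (F : ℤ → ℝ)
    (hF : ∀ a b : ℤ, a ≡ b [ZMOD (m : ℤ)] → F a = F b) (c : ℤ) :
    ∑ i ∈ Finset.range m, F ((i : ℤ) + c) = ∑ i ∈ Finset.range m, F (i : ℤ) := by
  have hm' : (0 : ℤ) < m := by exact_mod_cast hm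
  have key : ∀ x : ℤ, (((x % (m : ℤ)).toNat : ℕ) : ℤ) = x % m := fun x =>
    Int.toNat_of_nonneg (Int.emod_nonneg _ hm'.ne')
  have hlt : ∀ x : ℤ, (x % (m : ℤ)).toNat < m := by
    intro x
    have h1 := Int.emod_lt_of_pos x hm'
    have h2 := key x
    omega
  refine Finset.sum_nbij' (fun i => (((i : ℤ) + c) % (m : ℤ)).toNat)
    (fun i => (((i : ℤ) - c) % (m : ℤ)).toNat) ?_ ?_ ?_ ?_ ?_
  · intro i _
    exact Finset.mem_range.2 (hlt _)
  · intro i _
    exact Finset.mem_range.2 (hlt _)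
  · intro i hi
    have hi' := Finset.mem_range.1 hi
    rw [key]
    have h1 : (((i : ℤ) + c) % (m : ℤ) - c) % (m : ℤ) = (i : ℤ) % m := by
      have h2 : (((i : ℤ) + c) % (m : ℤ) - c) ≡ i [ZMOD (m : ℤ)] := by
        have h3 := (Int.mod_modEq ((i : ℤ) + c) (m : ℤ)).sub_right c
        rwa [add_sub_cancel_right] at h3
      exact h2
    rw [h1, Int.emod_eq_of_lt (by positivity) (by exact_mod_cast hi')]
    simp
  · intro i hi
    have hi' := Finset.mem_range.1 hi
    rw [key]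
    have h1 : (((i : ℤ) - c) % (m : ℤ) + c) % (m : ℤ) = (i : ℤ) % m := by
      have h2 : (((i : ℤ) - c) % (m : ℤ) + c) ≡ i [ZMOD (m : ℤ)] := by
        have h3 := (Int.mod_modEq ((i : ℤ) - c) (m : ℤ)).add_right c
        rwa [sub_add_cancel] at h3
      exact h2
    rw [h1, Int.emod_eq_of_lt (by positivity) (by exact_mod_cast hi')]
    simp
  · intro i _
    rw [key]
    exact hF _ _ (Int.mod_modEq _ _).symm

/-- SQT -/
theorem sqt (tra : TraStmt) : SqtStmt := by
  intro q k r m c s w hq hm hr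
  unfold Sq
  have h1 : ∀ i ∈ Finset.range m, (mom q (mc 0 k) r (cl m ((i : ℕ) : ℤ) (tr c s)) (tw c w)) ^
      (1 / (r : ℝ)) = (fun a : ℤ => (mom q (mc 0 k) r (cl m a s) w) ^ (1 / (r : ℝ)))
        (((i : ℕ) : ℤ) + c) := by
    intro i _
    beta_reduce
    rw [cl_tr, mom_tr tra q k r c _ w hq]
  rw [Finset.sum_congr rfl h1]
  refine sum_shift hm (fun a : ℤ => (mom q (mc 0 k) r (cl m a s) w) ^ (1 / (r : ℝ))) ?_ c
  intro a b hab
  rw [cl_congr hab]

end Pool.Agent.VM.H64
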